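import Pool.Agent.H427R2.SD.All

set_option autoImplicit false

namespace Pool.Agent.Results.MP_7cecc1_co.SimpleLower

open Pool.Agent.Helper883.Dicut

/-- For acyclic simple digraphs the optimal exponent is strictly larger than `3/5`. -/
theorem result : 3 / 5 + 1 / 10 ^ 8 ≤ alpha0 ClassS :=
  Pool.Agent.H427R2.SD.FIN_all.1

end Pool.Agent.Results.MP_7cecc1_co.SimpleLower
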